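import Pool.Agent.Helper20.HP.Data2

/-!
# HOPF-D1: the real inequality for small `δ`
-/

open Filter Metric Module Set

namespace Pool.Agent.Helper82.HP
open Pool.Agent.Helper20.HP

/-- a positive definite binary form with bounded coefficients. -/
lemma D1_form {B c K l q : ℝ} (hB : 1 ≤ B) (hc : 0 < c) (hK : |K| ≤ B) (hq : |q| ≤ B) (hK2 : 1/2 ≤ K)
    (h : c ≤ 4 * K * q - l ^ 2) (a b : ℝ) :
    c / (8 * B) * (a ^ 2 + b ^ 2) ≤ K * a ^ 2 + l * a * b + q * b ^ 2 := by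
  obtain ⟨t, ht⟩ : ∃ t, t = c / (8 * B) := ⟨_, rfl⟩
  have hB0 : 0 < B := by linarith only [hB]
  have htB : t * (8 * B) = c := by rw [ht]; field_simp
  have ht0 : 0 < t := by rw [ht]; positivity
  have hKB : K ≤ B := (abs_le.mp hK).2
  have hqB : q ≤ B := (abs_le.mp hq).2
  have hKq : 4 * K * q ≤ 4 * K * B := by
    have : 0 ≤ 4 * K := by linarith
    nlinarith only [hqB, hK2]
  have hKt : 0 < K - t := by
    have h1 : t * (8 * B) ≤ 4 * K * B := by linarith only [h, htB, hKq, sq_nonneg l]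
    have h2 : t * 2 ≤ K := by
      have : (t * 2) * (4 * B) ≤ K * (4 * B) := by nlinarith only [h, htB, hKq]
      exact le_of_mul_le_mul_right this (by linarith)
    linarith only [ht0, h2]
  have hdet : l ^ 2 ≤ 4 * ((K - t) * (q - t)) := by
    have h1 : t * (K + q) ≤ t * (2 * B) := mul_le_mul_of_nonneg_left (by linarith) ht0.le
    linarith only [h, htB, h1, sq_nonneg t]
  rw [← ht]
  have key : 0 ≤ (K - t) * ((K - t) * a ^ 2 + l * a * b + (q - t) * b ^ 2) := by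
    have h1 : (K - t) * ((K - t) * a ^ 2 + l * a * b + (q - t) * b ^ 2)
        = ((K - t) * a + l * b / 2) ^ 2 + (4 * ((K - t) * (q - t)) - l ^ 2) / 4 * b ^ 2 := by ring
    rw [h1]
    have : 0 ≤ (4 * ((K - t) * (q - t)) - l ^ 2) / 4 * b ^ 2 := by
      apply mul_nonneg
      · linarith only [hdet]
      · exact sq_nonneg b
    linarith only [this, sq_nonneg ((K - t) * a + l * b / 2)]
  have := (mul_nonneg_iff_of_pos_left hKt).mp key
  linarith only [this]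

/-- the case `|m2| ≤ |m1|`. -/
lemma D1_aux {B c : ℝ} (hB : 1 ≤ B) (hc : 0 < c) {δ : ℝ} (hδ : 0 < δ) (hδ1 : δ ≤ 1)
    (hδ2 : 16 * B * δ ≤ min (c / (8 * B)) (1/4)) {K l1 l2 q1 q2 xx z m1 m2 : ℝ}
    (hK : |K| ≤ B) (hl2 : |l2| ≤ B) (hq1 : |q1| ≤ B) (hq2 : 0 ≤ q2)
    (hK2 : 1/2 ≤ K) (h1 : c ≤ 4 * K * q1 - l1 ^ 2)
    (hz : xx * z = m1 * m2) (hs : xx ^ 2 + z ^ 2 + m1 ^ 2 + m2 ^ 2 = 1) (hm : |m2| ≤ |m1|) :
    0 < K * xx ^ 2 + (1/4) * (δ ^ 2)⁻¹ * z ^ 2 + δ * xx * (m1 * l1 + m2 * l2)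
        + δ ^ 2 * (m1 ^ 2 * q1 + m2 ^ 2 * q2) - B * Er δ xx z m1 m2 := by
  obtain ⟨w, hw⟩ : ∃ w, w = z / δ := ⟨_, rfl⟩
  have hzw : z = δ * w := by rw [hw]; field_simp
  obtain ⟨b, hb⟩ : ∃ b, b = δ * m1 := ⟨_, rfl⟩
  obtain ⟨S, hS⟩ : ∃ S, S = xx ^ 2 + b ^ 2 + w ^ 2 := ⟨_, rfl⟩
  have hB0 : 0 < B := by linarith only [hB]
  have hS0 : 0 < S := by
    have hS' : 0 ≤ S := by rw [hS]; positivity
    rcases hS'.lt_or_eq with h | h
    · exact h
    · exfalso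
      have e1 : xx ^ 2 = 0 := by linarith only [hS, h, sq_nonneg xx, sq_nonneg b, sq_nonneg w]
      have e2 : b ^ 2 = 0 := by linarith only [hS, h, sq_nonneg xx, sq_nonneg b, sq_nonneg w]
      have e3 : w ^ 2 = 0 := by linarith only [hS, h, sq_nonneg xx, sq_nonneg b, sq_nonneg w]
      have f1 : xx = 0 := by simpa using e1
      have f2 : b = 0 := by simpa using e2
      have f3 : w = 0 := by simpa using e3
      have f4 : m1 = 0 := by
        rw [hb] at f2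
        rcases mul_eq_zero.mp f2 with h | h
        · exact absurd h hδ.ne'
        · exact h
      have f5 : m2 = 0 := by
        rw [f4] at hm
        simpa using hm
      rw [hzw, f1, f3, f4, f5] at hs
      norm_num at hs
  -- elementary bounds
  have hxS : xx ^ 2 ≤ S := by rw [hS]; linarith only [sq_nonneg b, sq_nonneg w]
  have hbS : b ^ 2 ≤ S := by rw [hS]; linarith only [sq_nonneg xx, sq_nonneg w]
  have hwS : w ^ 2 ≤ S := by rw [hS]; linarith only [sq_nonneg xx, sq_nonneg b]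
  have hxw : 2 * (|xx| * |w|) ≤ S := by
    rw [hS, ← sq_abs xx, ← sq_abs w]; linarith only [sq_nonneg (|xx| - |w|), sq_nonneg b]
  have hxb : 2 * (|xx| * |b|) ≤ S := by
    rw [hS, ← sq_abs xx, ← sq_abs b]; linarith only [sq_nonneg (|xx| - |b|), sq_nonneg w]
  have hwb : 2 * (|w| * |b|) ≤ S := by
    rw [hS, ← sq_abs w, ← sq_abs b]; linarith only [sq_nonneg (|w| - |b|), sq_nonneg xx]
  have hδS : δ ^ 2 * S ≤ δ * S := by nlinarith only [hδ1, hδ, hS0, mul_pos hδ hS0]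
  have hm2 : m2 ^ 2 ≤ δ * (|xx| * |w|) := by
    have e : |m1| * |m2| = δ * (|xx| * |w|) := by
      rw [← abs_mul, ← hz, hzw, abs_mul, abs_mul, abs_of_pos hδ]; ring
    rw [← e, ← sq_abs m2]
    nlinarith only [hm, abs_nonneg m2]
  have hcross : |δ * xx * m2| ≤ δ * S := by
    apply abs_le_of_sq_le_sq _ (by positivity)
    have e1 : (δ * xx * m2) ^ 2 ≤ (δ ^ 2 * xx ^ 2) * (δ * (|xx| * |w|)) := by
      have : (δ * xx * m2) ^ 2 = (δ ^ 2 * xx ^ 2) * m2 ^ 2 := by ring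
      rw [this]
      exact mul_le_mul_of_nonneg_left hm2 (by positivity)
    have e2 : (δ ^ 2 * xx ^ 2) * (δ * (|xx| * |w|)) ≤ (δ ^ 2 * S) * (1 * S) := by
      apply mul_le_mul
      · exact mul_le_mul_of_nonneg_left hxS (by positivity)
      · apply mul_le_mul hδ1 _ (by positivity) (by norm_num)
        have : 0 ≤ |xx| * |w| := by positivity
        linarith only [hS0, hxw]
      · positivity
      · positivity
    linarith only [e1, e2]
  have hEr : Er δ xx z m1 m2 ≤ 7 * (δ * S) := by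
    unfold Er
    have t1 : δ ^ 2 * xx ^ 2 ≤ δ * S := by
      have := mul_le_mul_of_nonneg_left hxS (sq_nonneg δ)
      linarith only [hδS, this]
    have t2 : z ^ 2 ≤ δ * S := by
      have := mul_le_mul_of_nonneg_left hwS (sq_nonneg δ)
      have e : z ^ 2 = δ ^ 2 * w ^ 2 := by rw [hzw]; ring
      linarith only [hδS, this, e]
    have t3 : |xx * z| ≤ δ * S := by
      have e : |xx * z| = δ * (|xx| * |w|) := by
        rw [hzw, abs_mul, abs_mul, abs_of_pos hδ]; ring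
      rw [e]
      apply mul_le_mul_of_nonneg_left _ hδ.le
      have : 0 ≤ |xx| * |w| := by positivity
      linarith only [hS0, hxw]
    have hbm : |b| = δ * |m1| := by rw [hb, abs_mul, abs_of_pos hδ]
    have t4 : δ * |z| * (|m1| + |m2|) ≤ δ * S := by
      have e : |z| = δ * |w| := by rw [hzw, abs_mul, abs_of_pos hδ]
      have e1 : δ * |z| * (|m1| + |m2|) ≤ δ * |z| * (2 * |m1|) := by
        apply mul_le_mul_of_nonneg_left _ (by positivity)
        linarith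
      have e2 : δ * |z| * (2 * |m1|) = δ * (2 * (|w| * |b|)) := by rw [e, hbm]; ring
      have e3 := mul_le_mul_of_nonneg_left hwb hδ.le
      linarith
    have t5 : δ ^ 3 * |xx| * (|m1| + |m2|) ≤ δ * S := by
      have e1 : δ ^ 3 * |xx| * (|m1| + |m2|) ≤ δ ^ 3 * |xx| * (2 * |m1|) := by
        apply mul_le_mul_of_nonneg_left _ (by positivity)
        linarith only [hm]
      have e2 : δ ^ 3 * |xx| * (2 * |m1|) = δ ^ 2 * (2 * (|xx| * |b|)) := by rw [hbm]; ring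
      have e3 := mul_le_mul_of_nonneg_left hxb (sq_nonneg δ)
      linarith
    have t6 : δ ^ 4 * (m1 ^ 2 + m2 ^ 2) ≤ 2 * (δ * S) := by
      have e0 : m2 ^ 2 ≤ m1 ^ 2 := sq_le_sq.mpr hm
      have e1 : δ ^ 4 * (m1 ^ 2 + m2 ^ 2) ≤ δ ^ 4 * (2 * m1 ^ 2) := by
        apply mul_le_mul_of_nonneg_left _ (by positivity)
        linarith only [e0]
      have e2 : δ ^ 4 * (2 * m1 ^ 2) = 2 * (δ ^ 2 * b ^ 2) := by rw [hb]; ring
      have e3 := mul_le_mul_of_nonneg_left hbS (sq_nonneg δ)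
      linarith only [hδS, e1, e2, e3]
    linarith
  have hform := D1_form hB hc hK hq1 hK2 h1 xx b
  have hmin1 : min (c / (8 * B)) (1/4) * (xx ^ 2 + b ^ 2) ≤ c / (8 * B) * (xx ^ 2 + b ^ 2) :=
    mul_le_mul_of_nonneg_right (min_le_left _ _) (by positivity)
  have hmin2 : min (c / (8 * B)) (1/4) * w ^ 2 ≤ 1/4 * w ^ 2 :=
    mul_le_mul_of_nonneg_right (min_le_right _ _) (by positivity)
  have hmain : 16 * B * δ * S ≤ min (c / (8 * B)) (1/4) * (xx ^ 2 + b ^ 2) + min (c / (8 * B)) (1/4) * w ^ 2 := by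
    have := mul_le_mul_of_nonneg_right hδ2 hS0.le
    have e : min (c / (8 * B)) (1/4) * (xx ^ 2 + b ^ 2) + min (c / (8 * B)) (1/4) * w ^ 2
        = min (c / (8 * B)) (1/4) * S := by rw [hS]; ring
    linarith only [this, e]
  have hzz : (1/4) * (δ ^ 2)⁻¹ * z ^ 2 = 1/4 * w ^ 2 := by
    rw [hzw]; field_simp
  have hc2 : - (B * (δ * S)) ≤ δ * xx * m2 * l2 := by
    have e1 : |δ * xx * m2 * l2| ≤ (δ * S) * B := by
      rw [abs_mul]
      exact mul_le_mul hcross hl2 (abs_nonneg _) (by positivity)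
    have := (abs_le.mp e1).1
    linarith only [this]
  have hq : 0 ≤ δ ^ 2 * (m2 ^ 2 * q2) := by positivity
  have hBEr : B * Er δ xx z m1 m2 ≤ B * (7 * (δ * S)) := mul_le_mul_of_nonneg_left hEr hB0.le
  have hexp : K * xx ^ 2 + (1/4) * (δ ^ 2)⁻¹ * z ^ 2 + δ * xx * (m1 * l1 + m2 * l2)
        + δ ^ 2 * (m1 ^ 2 * q1 + m2 ^ 2 * q2) - B * Er δ xx z m1 m2
      = (K * xx ^ 2 + l1 * xx * b + q1 * b ^ 2) + 1/4 * w ^ 2 + δ * xx * m2 * l2
        + δ ^ 2 * (m2 ^ 2 * q2) - B * Er δ xx z m1 m2 := by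
    rw [hzz, hb]; ring
  rw [hexp]
  have hpos : 0 < B * (δ * S) := by positivity
  linarith only [hform, hmin1, hmin2, hmain, hc2, hq, hBEr, hpos]

lemma D1_q_nonneg {c K l q : ℝ} (hc : 0 < c) (hK2 : 1/2 ≤ K) (h : c ≤ 4 * K * q - l ^ 2) : 0 ≤ q := by
  by_contra hq
  push Not at hq
  have : 4 * K * q < 0 := by
    have : 0 < 4 * K := by linarith
    nlinarith only [hc, h, hq, hK2]
  linarith only [hc, h, this, sq_nonneg l]

-- D1 : real inequality for small δ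
theorem small_delta {B c : ℝ} (hB : 1 ≤ B) (hc : 0 < c) :
    ∃ δ₀ > 0, ∀ δ, 0 < δ → δ ≤ δ₀ → ∀ K l1 l2 q1 q2 xx z m1 m2 : ℝ,
      |K| ≤ B → |l1| ≤ B → |l2| ≤ B → |q1| ≤ B → |q2| ≤ B → 1/2 ≤ K →
      c ≤ 4 * K * q1 - l1 ^ 2 → c ≤ 4 * K * q2 - l2 ^ 2 →
      xx * z = m1 * m2 → xx ^ 2 + z ^ 2 + m1 ^ 2 + m2 ^ 2 = 1 →
      0 < K * xx ^ 2 + (1/4) * (δ ^ 2)⁻¹ * z ^ 2 + δ * xx * (m1 * l1 + m2 * l2)
        + δ ^ 2 * (m1 ^ 2 * q1 + m2 ^ 2 * q2) - B * Er δ xx z m1 m2 := by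
  have hB0 : 0 < B := by linarith
  obtain ⟨t, ht⟩ : ∃ t, t = min (c / (8 * B)) (1/4) := ⟨_, rfl⟩
  have ht0 : 0 < t := by rw [ht]; apply lt_min <;> positivity
  refine ⟨min 1 (t / (16 * B)), lt_min one_pos (by positivity), ?_⟩
  intro δ hδ hδ0 K l1 l2 q1 q2 xx z m1 m2 hK hl1 hl2 hq1 hq2 hK2 h1 h2 hz hs
  have hδ1 : δ ≤ 1 := hδ0.trans (min_le_left _ _)
  have hδ2 : 16 * B * δ ≤ min (c / (8 * B)) (1/4) := by
    rw [← ht]
    have := hδ0.trans (min_le_right _ _)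
    rw [le_div_iff₀ (by positivity)] at this
    linarith only [this]
  rcases le_total |m2| |m1| with hm | hm
  · exact D1_aux hB hc hδ hδ1 hδ2 hK hl2 hq1 (D1_q_nonneg hc hK2 h2) hK2 h1 hz hs hm
  · have := D1_aux (l1 := l2) (l2 := l1) (q1 := q2) (q2 := q1) (m1 := m2) (m2 := m1) hB hc hδ hδ1 hδ2 hK hl1 hq2
      (D1_q_nonneg hc hK2 h1) hK2 h2 (by rw [hz]; ring) (by linarith only [hs]) hm
    have hE : Er δ xx z m2 m1 = Er δ xx z m1 m2 := by unfold Er; ring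
    rw [hE] at this
    have e : K * xx ^ 2 + (1/4) * (δ ^ 2)⁻¹ * z ^ 2 + δ * xx * (m1 * l1 + m2 * l2)
        + δ ^ 2 * (m1 ^ 2 * q1 + m2 ^ 2 * q2) - B * Er δ xx z m1 m2
        = K * xx ^ 2 + (1/4) * (δ ^ 2)⁻¹ * z ^ 2 + δ * xx * (m2 * l2 + m1 * l1)
        + δ ^ 2 * (m2 ^ 2 * q2 + m1 ^ 2 * q1) - B * Er δ xx z m1 m2 := by ring
    rw [e]
    exact this

end Pool.Agent.Helper82.HP
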