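import Mathlib
import Pool.Agent.Helper16.CubicPoly

set_option autoImplicit false

/-!
Transfer of divisibility and square-class conditions from forms in three variables to
`C(x)[Y]` (dehomogenisation followed by the Gauss lemma).
-/

namespace Pool.Agent.Helper82.HP

open MvPolynomial

abbrev KX := FractionRing (Polynomial ℂ)
abbrev RA := Polynomial KX
abbrev R3 := MvPolynomial (Fin 3) ℂ

/-- the embedding of `C[x]` in `C(x)[Y]` -/
noncomputable def cx : Polynomial ℂ →+* RA :=
  (Polynomial.C : KX →+* RA).comp (algebraMap (Polynomial ℂ) KX)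

theorem cx_inj : Function.Injective cx := by
  intro a b h
  exact IsFractionRing.injective (Polynomial ℂ) KX (Polynomial.C_injective h)

/-- the substitution `z0 = 1, z1 = x, z2 = Y` -/
noncomputable def ph : R3 →ₐ[ℂ] RA := aeval ![1, cx Polynomial.X, Polynomial.X]

noncomputable def ph0 : R3 →ₐ[ℂ] Polynomial (Polynomial ℂ) :=
  aeval ![1, Polynomial.C Polynomial.X, Polynomial.X]

theorem alg_eq (a : ℂ) : algebraMap ℂ RA a = cx (Polynomial.C a) := by
  rw [Polynomial.algebraMap_apply]
  change Polynomial.C (algebraMap ℂ KX a) = Polynomial.C (algebraMap (Polynomial ℂ) KX (Polynomial.C a))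
  rw [IsScalarTower.algebraMap_apply ℂ (Polynomial ℂ) KX]
  rfl

theorem ph_C (a : ℂ) : ph (C a) = cx (Polynomial.C a) := by
  rw [← alg_eq]; exact ph.commutes a

theorem ph_X0 : ph (X 0) = 1 := by simp [ph]
theorem ph_X1 : ph (X 1) = cx Polynomial.X := by simp [ph]
theorem ph_X2 : ph (X 2) = Polynomial.X := by simp [ph]

theorem ph_eq (p : R3) : ph p = (ph0 p).map (algebraMap (Polynomial ℂ) KX) := by
  have h : (Polynomial.mapRingHom (algebraMap (Polynomial ℂ) KX)).comp (ph0 : R3 →+* _) =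
      (ph : R3 →+* RA) := by
    apply MvPolynomial.ringHom_ext
    · intro a
      change (ph0 (C a)).map _ = ph (C a)
      rw [ph_C]
      have : ph0 (C a) = Polynomial.C (Polynomial.C a) := by
        have := ph0.commutes a
        exact this
      rw [this, Polynomial.map_C]; rfl
    · intro i
      change (ph0 (X i)).map _ = ph (X i)
      fin_cases i
      · simp [ph, ph0]
      · simp [ph, ph0, cx]
      · simp [ph, ph0]
  exact (DFunLike.congr_fun h p).symm

theorem ev_ph0 (a b : ℂ) (p : R3) :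
    ((ph0 p).eval (Polynomial.C b)).eval a = eval ![1, a, b] p := by
  have h : ((Polynomial.evalRingHom a).comp (Polynomial.evalRingHom (Polynomial.C b))).comp
      (ph0 : R3 →+* _) = (eval ![1, a, b] : R3 →+* ℂ) := by
    apply MvPolynomial.ringHom_ext
    · intro c
      change ((ph0 (C c)).eval (Polynomial.C b)).eval a = _
      have : ph0 (C c) = Polynomial.C (Polynomial.C c) := ph0.commutes c
      rw [this]; simp
    · intro i
      change ((ph0 (X i)).eval (Polynomial.C b)).eval a = _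
      fin_cases i
      · simp [ph0]
      · simp [ph0]
      · simp [ph0]
  exact DFunLike.congr_fun h p

theorem eval_smul_hom {σ : Type*} {φ : MvPolynomial σ ℂ} {n : ℕ}
    (h : φ.IsHomogeneous n) (c : ℂ) (g : σ → ℂ) :
    eval (c • g) φ = c ^ n * eval g φ := by
  rw [eval_eq, eval_eq, Finset.mul_sum]
  refine Finset.sum_congr rfl fun m hm => ?_
  have hn := h.degree_eq_sum_deg_support hm
  simp only [Pi.smul_apply, smul_eq_mul, mul_pow]
  rw [Finset.prod_mul_distrib, Finset.prod_pow_eq_pow_sum, ← hn]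
  ring

/-- dehomogenisation is injective on forms -/
theorem ph_inj {f : R3} {n : ℕ} (hf : f.IsHomogeneous n) (h : ph f = 0) : f = 0 := by
  have h1 : ph0 f = 0 := by
    rw [ph_eq] at h
    have hinj := Polynomial.map_injective _ (IsFractionRing.injective (Polynomial ℂ) KX)
    exact hinj (h.trans (Polynomial.map_zero _).symm)
  have h0 : X 0 * f = 0 := by
    apply MvPolynomial.funext
    intro v
    rw [map_mul, eval_X, map_zero]
    by_cases hv : v 0 = 0
    · rw [hv, zero_mul]
    · have hv' : v = v 0 • (![1, (v 0)⁻¹ * v 1, (v 0)⁻¹ * v 2] : Fin 3 → ℂ) := by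
        funext i
        fin_cases i
        · simp
        · simp [hv]
        · simp [hv]
      have : eval v f = 0 := by
        rw [hv', eval_smul_hom hf, ← ev_ph0, h1]
        simp
      rw [this, mul_zero]
  rcases mul_eq_zero.mp h0 with h1 | h1
  · exact absurd h1 (X_ne_zero 0)
  · exact h1

/-- forms with the same dehomogenisation -/
theorem ph_inj2 {f g : R3} {n m : ℕ} (hf : f.IsHomogeneous n) (hg : g.IsHomogeneous m)
    (h : ph f = ph g) : X 0 ^ m * f = X 0 ^ n * g := by
  have h1 : (X 0 ^ m * f - X 0 ^ n * g).IsHomogeneous (m + n) := by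
    apply IsHomogeneous.sub
    · exact (isHomogeneous_X_pow _ _).mul hf
    · rw [add_comm m n]; exact (isHomogeneous_X_pow _ _).mul hg
  have h2 : ph (X 0 ^ m * f - X 0 ^ n * g) = 0 := by
    rw [map_sub, map_mul, map_mul, map_pow, map_pow, ph_X0, h]; simp
  exact sub_eq_zero.mp (ph_inj h1 h2)

/-- homogenisation of a polynomial in `x` -/
theorem lift_cx (s : Polynomial ℂ) : ∃ (n : ℕ) (p : R3), p.IsHomogeneous n ∧ ph p = cx s ∧
    degreeOf 2 p = 0 := by
  induction s using Polynomial.induction_on' with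
  | add a b ha hb =>
    obtain ⟨n, p, hp, hp1, hp2⟩ := ha
    obtain ⟨m, q, hq, hq1, hq2⟩ := hb
    refine ⟨m + n, X 0 ^ m * p + X 0 ^ n * q, ?_, ?_, ?_⟩
    · apply IsHomogeneous.add
      · exact (isHomogeneous_X_pow _ _).mul hp
      · rw [add_comm m n]; exact (isHomogeneous_X_pow _ _).mul hq
    · rw [map_add, map_mul, map_mul, map_pow, map_pow, ph_X0, hp1, hq1, map_add]; simp
    · have h0 : ∀ k : ℕ, degreeOf 2 (X 0 ^ k : R3) = 0 := by
        intro k
        have := degreeOf_pow_le (2 : Fin 3) (X 0 : R3) k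
        rw [degreeOf_X] at this
        simpa using this
      have h1 : degreeOf 2 (X 0 ^ m * p : R3) = 0 := by
        have := degreeOf_mul_le (2 : Fin 3) (X 0 ^ m : R3) p
        rw [h0, hp2] at this; omega
      have h2 : degreeOf 2 (X 0 ^ n * q : R3) = 0 := by
        have := degreeOf_mul_le (2 : Fin 3) (X 0 ^ n : R3) q
        rw [h0, hq2] at this; omega
      have := degreeOf_add_le (2 : Fin 3) (X 0 ^ m * p : R3) (X 0 ^ n * q)
      rw [h1, h2] at this
      simpa using this
  | monomial k a =>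
    refine ⟨k, C a * X 1 ^ k, ?_, ?_, ?_⟩
    · exact isHomogeneous_C_mul_X_pow _ _ _
    · rw [map_mul, ph_C, map_pow, ph_X1, ← map_pow, ← map_mul, Polynomial.C_mul_X_pow_eq_monomial]
    · have h1 := degreeOf_C_mul_le (X 1 ^ k : R3) (2 : Fin 3) a
      have h2 := degreeOf_pow_le (2 : Fin 3) (X 1 : R3) k
      rw [degreeOf_X] at h2
      simp at h2
      omega

/-- homogenisation of a polynomial in `C(x)[Y]` up to a nonzero element of `C[x]` -/
theorem lift_ra (a : RA) : ∃ (s : Polynomial ℂ) (n : ℕ) (p : R3), s ≠ 0 ∧ p.IsHomogeneous n ∧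
    ph p = cx s * a := by
  induction a using Polynomial.induction_on' with
  | add a b ha hb =>
    obtain ⟨s, n, p, hs, hp, hp1⟩ := ha
    obtain ⟨t, m, q, ht, hq, hq1⟩ := hb
    obtain ⟨n', s', hs', hs1, -⟩ := lift_cx s
    obtain ⟨m', t', ht', ht1, -⟩ := lift_cx t
    refine ⟨s * t, m + n' + (m' + n), X 0 ^ (m + n') * (t' * p) + X 0 ^ (m' + n) * (s' * q),
      mul_ne_zero hs ht, ?_, ?_⟩
    · apply IsHomogeneous.add
      · exact (isHomogeneous_X_pow _ _).mul (ht'.mul hp)
      · have := (isHomogeneous_X_pow (R := ℂ) (0 : Fin 3) (m' + n)).mul (hs'.mul hq)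
        rwa [show m' + n + (n' + m) = m + n' + (m' + n) by ring] at this
    · simp only [map_add, map_mul, map_pow, ph_X0, hp1, hq1, hs1, ht1]
      ring
  | monomial k c =>
    obtain ⟨u, v, hv, huv⟩ := IsFractionRing.div_surjective (A := Polynomial ℂ) c
    obtain ⟨n, p, hp, hp1, -⟩ := lift_cx u
    have hv0 : v ≠ 0 := nonZeroDivisors.ne_zero hv
    refine ⟨v, n + k, p * X 2 ^ k, hv0, hp.mul (isHomogeneous_X_pow _ _), ?_⟩
    rw [map_mul, hp1, map_pow, ph_X2, ← Polynomial.C_mul_X_pow_eq_monomial, ← mul_assoc]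
    congr 1
    change Polynomial.C _ = Polynomial.C _ * Polynomial.C _
    rw [← Polynomial.C_mul, ← huv]
    congr 1
    have : (algebraMap (Polynomial ℂ) KX) v ≠ 0 := by
      intro h
      exact hv0 (IsFractionRing.injective (Polynomial ℂ) KX (h.trans (map_zero _).symm))
    field_simp

theorem cx_ne {s : Polynomial ℂ} (hs : s ≠ 0) : cx s ≠ 0 := fun h =>
  hs (cx_inj (h.trans (map_zero _).symm))

theorem dvd_key {δ f : R3} {n m : ℕ} (hδ : δ.IsHomogeneous n) (hf : f.IsHomogeneous m)
    (h : ph δ ∣ ph f) : ∃ S : R3, S ≠ 0 ∧ degreeOf 2 S = 0 ∧ δ ∣ S * f := by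
  obtain ⟨a, ha⟩ := h
  obtain ⟨s, k, p, hs, hp, hp1⟩ := lift_ra a
  obtain ⟨k', s', hs', hs1, hs2⟩ := lift_cx s
  have h1 : ph (s' * f) = ph (δ * p) := by
    rw [map_mul, map_mul, hs1, hp1, ha]; ring
  have h2 := ph_inj2 (hs'.mul hf) (hδ.mul hp) h1
  have hs0 : s' ≠ 0 := by
    intro h
    rw [h, map_zero] at hs1
    exact cx_ne hs hs1.symm
  refine ⟨X 0 ^ (n + k) * s', mul_ne_zero (pow_ne_zero _ (X_ne_zero 0)) hs0, ?_, ?_⟩
  · rw [degreeOf_mul_eq (pow_ne_zero _ (X_ne_zero 0)) hs0, hs2,
      degreeOf_pow_eq _ _ _ (X_ne_zero 0), degreeOf_X]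
    simp
  · rw [mul_assoc, h2]
    exact ⟨X 0 ^ (k' + m) * p, by ring⟩

theorem not_dvd_const {δ S : R3} (h2 : degreeOf 2 δ ≠ 0) (hS : S ≠ 0) (hS2 : degreeOf 2 S = 0) :
    ¬ δ ∣ S := by
  rintro ⟨c, rfl⟩
  rw [degreeOf_mul_eq (left_ne_zero_of_mul hS) (right_ne_zero_of_mul hS)] at hS2
  omega

/-- divisibility by an irreducible form involving `z2` can be tested after dehomogenisation -/
theorem ph_dvd {δ f : R3} {n m : ℕ} (hδ : δ.IsHomogeneous n) (hirr : Irreducible δ)
    (h2 : degreeOf 2 δ ≠ 0) (hf : f.IsHomogeneous m) : ph δ ∣ ph f ↔ δ ∣ f := by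
  constructor
  · intro h
    obtain ⟨S, hS0, hS2, hS⟩ := dvd_key hδ hf h
    rcases hirr.prime.dvd_or_dvd hS with h3 | h3
    · exact absurd h3 (not_dvd_const h2 hS0 hS2)
    · exact h3
  · intro h
    exact map_dvd ph h

theorem isUnit_cx {s : Polynomial ℂ} (hs : s ≠ 0) : IsUnit (cx s) := by
  apply Polynomial.isUnit_C.mpr
  apply IsUnit.mk0
  intro h
  exact hs (IsFractionRing.injective (Polynomial ℂ) KX (h.trans (map_zero _).symm))

/-- irreducible forms involving `z2` stay prime -/
theorem ph_prime {δ : R3} {n : ℕ} (hδ : δ.IsHomogeneous n) (hirr : Irreducible δ)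
    (h2 : degreeOf 2 δ ≠ 0) : Prime (ph δ) := by
  refine ⟨?_, ?_, ?_⟩
  · intro h
    exact hirr.ne_zero (ph_inj hδ h)
  · intro h
    have h1 : ph δ ∣ ph 1 := by rw [map_one]; exact h.dvd
    rw [ph_dvd hδ hirr h2 (isHomogeneous_one _ _)] at h1
    exact hirr.not_isUnit (isUnit_of_dvd_one h1)
  · intro a b hab
    obtain ⟨s, n1, p, hs, hp, hp1⟩ := lift_ra a
    obtain ⟨t, n2, q, ht, hq, hq1⟩ := lift_ra b
    have h1 : ph δ ∣ ph (p * q) := by
      rw [map_mul, hp1, hq1]
      have : cx s * a * (cx t * b) = a * b * (cx s * cx t) := by ring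
      rw [this]; exact hab.mul_right _
    rw [ph_dvd hδ hirr h2 (hp.mul hq)] at h1
    rcases hirr.prime.dvd_or_dvd h1 with h3 | h3
    · left
      have h4 := map_dvd ph h3
      rw [hp1] at h4
      exact (isUnit_cx hs).dvd_mul_left.mp h4
    · right
      have h4 := map_dvd ph h3
      rw [hq1] at h4
      exact (isUnit_cx ht).dvd_mul_left.mp h4

/-- forms not involving `z2` become units -/
theorem ph_unit {p : R3} {n : ℕ} (hp : p.IsHomogeneous n) (h0 : p ≠ 0) (h2 : degreeOf 2 p = 0) :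
    IsUnit (ph p) := by
  have h1 : ph p ≠ 0 := fun h => h0 (ph_inj hp h)
  let g : R3 →ₐ[ℂ] Polynomial ℂ := aeval ![1, Polynomial.X, 0]
  have h3 : (ph : R3 →+* RA) p = (cx.comp (g : R3 →+* Polynomial ℂ)) p := by
    apply MvPolynomial.hom_congr_vars _ _ rfl
    · apply RingHom.ext
      intro a
      change ph (C a) = cx (g (C a))
      rw [ph_C]
      have : g (C a) = Polynomial.C a := g.commutes a
      rw [this]
    · intro i hi _
      rw [mem_vars_iff_degreeOf_ne_zero] at hi
      change ph (X i) = cx (g (X i))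
      fin_cases i
      · change ph (X 0) = cx (g (X 0))
        rw [ph_X0]; simp [g]
      · change ph (X 1) = cx (g (X 1))
        rw [ph_X1]; simp [g]
      · exact absurd h2 hi
  have h4 : ph p = cx (g p) := h3
  rw [h4]
  apply isUnit_cx
  intro h
  apply h1
  rw [h4, h, map_zero]

/-- an irreducible form of degree at least two involves `z2` -/
theorem degreeOf_two_ne {δ : R3} {n : ℕ} (hn : 2 ≤ n) (hδ : δ.IsHomogeneous n)
    (hirr : Irreducible δ) : degreeOf 2 δ ≠ 0 := by
  intro h2
  -- independence of the last coordinate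
  have hind : ∀ a b c c' : ℂ, eval ![a, b, c] δ = eval ![a, b, c'] δ := by
    intro a b c c'
    apply MvPolynomial.hom_congr_vars _ _ rfl
    · ext r; simp
    · intro i hi _
      rw [mem_vars_iff_degreeOf_ne_zero] at hi
      fin_cases i
      · simp
      · simp
      · exact absurd h2 hi
  have hsc : ∀ (r a b c : ℂ), eval ![r * a, r * b, r * c] δ = r ^ n * eval ![a, b, c] δ := by
    intro r a b c
    rw [← eval_smul_hom hδ]
    congr 2
    funext i
    fin_cases i <;> simp
  -- a root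
  obtain ⟨a, b, hab, hroot⟩ : ∃ a b : ℂ, (a ≠ 0 ∨ b ≠ 0) ∧ ∀ c, eval ![a, b, c] δ = 0 := by
    let q : Polynomial ℂ := (aeval ![1, Polynomial.X, 0] : R3 →ₐ[ℂ] Polynomial ℂ) δ
    have hq : ∀ t, q.eval t = eval ![1, t, 0] δ := by
      intro t
      have : ((Polynomial.evalRingHom t).comp
          ((aeval ![1, Polynomial.X, 0] : R3 →ₐ[ℂ] Polynomial ℂ) : R3 →+* Polynomial ℂ)) =
          (eval ![1, t, 0] : R3 →+* ℂ) := by
        apply MvPolynomial.ringHom_ext
        · intro r; simp
        · intro i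
          fin_cases i <;> simp
      exact DFunLike.congr_fun this δ
    by_cases hd : q.degree = 0
    · refine ⟨0, 1, Or.inr one_ne_zero, ?_⟩
      obtain ⟨k, hk⟩ : ∃ k : ℂ, ∀ t, q.eval t = k := by
        rw [Polynomial.eq_C_of_degree_eq_zero hd]
        exact ⟨q.coeff 0, fun t => by simp⟩
      have h3 : δ = C k * X 0 ^ n := by
        have : X 0 * δ = X 0 * (C k * X 0 ^ n) := by
          apply MvPolynomial.funext
          intro v
          simp only [map_mul, eval_X, eval_C, map_pow]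
          by_cases hv : v 0 = 0
          · rw [hv]; ring
          · have hv' : v = ![v 0 * 1, v 0 * ((v 0)⁻¹ * v 1), v 0 * ((v 0)⁻¹ * v 2)] := by
              funext i
              fin_cases i
              · simp
              · simp [hv]
              · simp [hv]
            have h4 : eval v δ = v 0 ^ n * k := by
              conv_lhs => rw [hv']
              rw [hsc, hind _ _ _ 0, ← hq, hk]
            rw [h4]; ring
        exact mul_left_cancel₀ (X_ne_zero 0) this
      intro c
      rw [h3]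
      simp
      right; omega
    · obtain ⟨t, ht⟩ := IsAlgClosed.exists_root q hd
      refine ⟨1, t, Or.inl one_ne_zero, ?_⟩
      intro c
      rw [hind _ _ c 0, ← hq]; exact ht
  -- the linear factor
  obtain ⟨l, hl⟩ : ∃ l : R3, l = C b * X 0 - C a * X 1 := ⟨_, rfl⟩
  have hlh : l.IsHomogeneous 1 := by
    rw [hl]
    exact (isHomogeneous_C_mul_X b 0).sub (isHomogeneous_C_mul_X a 1)
  have hl0 : l ≠ 0 := by
    intro h
    rcases hab with ha | hb
    · have := congrArg (eval ![0, 1, 0]) h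
      rw [hl] at this; simp at this; exact ha this
    · have := congrArg (eval ![1, 0, 0]) h
      rw [hl] at this; simp at this; exact hb this
  have hld : l.totalDegree = 1 := hlh.totalDegree hl0
  have hli : Irreducible l := by
    apply irreducible_of_totalDegree_eq_one hld
    intro x hx
    apply IsUnit.mk0
    rintro rfl
    apply hl0
    ext m
    have := hx m
    rw [zero_dvd_iff] at this
    rw [this]; simp
  have hdv : l ∣ δ := by
    apply Pool.Agent.Helper16.null_lite hli
    intro v hv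
    rw [hl] at hv
    simp only [map_sub, map_mul, eval_C, eval_X] at hv
    obtain ⟨r, hr0, hr1⟩ : ∃ r : ℂ, v 0 = r * a ∧ v 1 = r * b := by
      rcases hab with ha | hb
      · refine ⟨v 0 / a, by field_simp, ?_⟩
        field_simp
        linear_combination -hv
      · refine ⟨v 1 / b, ?_, by field_simp⟩
        field_simp
        linear_combination hv
    have hv' : v = ![r * a, r * b, v 2] := by
      funext i
      fin_cases i
      · simpa using hr0
      · simpa using hr1
      · simp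
    rw [hv', hind _ _ _ (r * 0), hsc, hroot, mul_zero]
  obtain ⟨m, hm⟩ := hdv
  rcases hirr.isUnit_or_isUnit hm with h | h
  · exact hli.not_isUnit h
  · have h1 : δ.totalDegree = n := hδ.totalDegree hirr.ne_zero
    rw [hm, totalDegree_mul_of_isDomain hl0 (by rintro rfl; exact not_isUnit_zero h), hld] at h1
    have h3 := (MvPolynomial.isUnit_iff_totalDegree_of_isReduced.mp h).2
    omega

open Pool.Agent.Helper16 in
theorem coeff_scal (f : R3) (i : ℕ) : (scal f).coeff i = homogeneousComponent i f := by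
  conv_lhs => rw [← sum_homogeneousComponent f, map_sum]
  rw [Polynomial.finsetSum_coeff]
  have h1 : ∀ j, (scal (homogeneousComponent j f)).coeff i =
      if i = j then homogeneousComponent j f else 0 := by
    intro j
    rw [scal_hom (homogeneousComponent_isHomogeneous j f), mul_comm, Polynomial.coeff_C_mul,
      Polynomial.coeff_X_pow]
    split_ifs <;> simp
  simp only [h1]
  by_cases hi : i < f.totalDegree + 1
  · rw [Finset.sum_ite_eq, if_pos (Finset.mem_range.mpr hi)]
  · rw [homogeneousComponent_eq_zero i f (by omega)]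
    apply Finset.sum_eq_zero
    intro j hj
    rw [if_neg]
    have := Finset.mem_range.mp hj
    omega

open Pool.Agent.Helper16 in
/-- the square-class condition modulo a form can be realised by forms -/
theorem hom_sq {π δ g h : R3} {e n : ℕ} (hπ : π.IsHomogeneous e) (hirr : Irreducible π)
    (hδ : δ.IsHomogeneous n) (h1 : ¬ π ∣ h) (h2 : π ∣ g ^ 2 - δ * h ^ 2) :
    ∃ (g' h' : R3) (j : ℕ), h'.IsHomogeneous j ∧ ¬ π ∣ h' ∧ π ∣ g' ^ 2 - δ * h' ^ 2 := by
  classical
  by_cases hδπ : π ∣ δ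
  · refine ⟨0, 1, 0, isHomogeneous_one _ _, ?_, ?_⟩
    · intro h; exact hirr.not_isUnit (isUnit_of_dvd_one h)
    · have : (0 : R3) ^ 2 - δ * 1 ^ 2 = - δ := by ring
      rw [this]; exact (dvd_neg).mpr hδπ
  have hp : (Ideal.span {π}).IsPrime := (Ideal.span_singleton_prime hirr.ne_zero).mpr hirr.prime
  let D := R3 ⧸ Ideal.span {π}
  have : IsDomain D := Ideal.Quotient.isDomain _
  let q : R3 →+* D := Ideal.Quotient.mk _
  have hq : ∀ f, q f = 0 ↔ π ∣ f := by
    intro f
    rw [← Ideal.mem_span_singleton]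
    exact Ideal.Quotient.eq_zero_iff_mem
  let τ : R3 →+* Polynomial D := (Polynomial.mapRingHom q).comp
    ((scal : R3 →ₐ[ℂ] Polynomial R3) : R3 →+* Polynomial R3)
  have hτc : ∀ f i, (τ f).coeff i = q (homogeneousComponent i f) := by
    intro f i
    change ((scal f).map q).coeff i = _
    rw [Polynomial.coeff_map, coeff_scal]
  have hτπ : τ π = 0 := by
    change (scal π).map q = 0
    rw [scal_hom hπ, Polynomial.map_mul, Polynomial.map_C, (hq π).mpr dvd_rfl]
    simp
  have hτδ : τ δ = Polynomial.C (q δ) * Polynomial.X ^ n := by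
    change (scal δ).map q = _
    rw [scal_hom hδ, Polynomial.map_mul, Polynomial.map_C, Polynomial.map_pow, Polynomial.map_X]
    exact Polynomial.X_pow_mul
  have hτh : τ h ≠ 0 := by
    intro h3
    apply h1
    rw [← hq, ← sum_homogeneousComponent h, map_sum]
    apply Finset.sum_eq_zero
    intro i _
    rw [← hτc, h3, Polynomial.coeff_zero]
  have hqδ : q δ ≠ 0 := fun h => hδπ ((hq δ).mp h)
  have heq : τ g ^ 2 = τ δ * τ h ^ 2 := by
    obtain ⟨c, hc⟩ := h2
    have := congrArg τ hc
    rw [map_mul, hτπ, zero_mul, map_sub, map_mul, map_pow, map_pow] at this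
    exact sub_eq_zero.mp this
  have hl := congrArg Polynomial.leadingCoeff heq
  rw [Polynomial.leadingCoeff_pow, Polynomial.leadingCoeff_mul, Polynomial.leadingCoeff_pow, hτδ,
    Polynomial.leadingCoeff_C_mul_X_pow] at hl
  refine ⟨homogeneousComponent (τ g).natDegree g, homogeneousComponent (τ h).natDegree h,
    (τ h).natDegree, homogeneousComponent_isHomogeneous _ _, ?_, ?_⟩
  · rw [← hq, ← hτc]
    exact Polynomial.leadingCoeff_ne_zero.mpr hτh
  · rw [← hq, map_sub, map_mul, map_pow, map_pow, ← hτc, ← hτc, sub_eq_zero]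
    exact hl

/-- primes of `C(x)[Y]` dividing a dehomogenised form -/
theorem exists_prime_form {μ : R3} {n : ℕ} (hμ : μ.IsHomogeneous n) (h0 : μ ≠ 0) {ϖ : RA}
    (hϖ : Prime ϖ) (hd : ϖ ∣ ph μ) : ∃ (π : R3) (e : ℕ), π.IsHomogeneous e ∧ Irreducible π ∧
      π ∣ μ ∧ degreeOf 2 π ≠ 0 ∧ Associated ϖ (ph π) := by
  have h1 : ∀ f : R3, f ≠ 0 → ϖ ∣ ph f → ∃ π, Irreducible π ∧ π ∣ f ∧ ϖ ∣ ph π := by
    intro f
    induction f using UniqueFactorizationMonoid.induction_on_prime with
    | h₁ => intro h; exact absurd rfl h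
    | h₂ x hx =>
      intro _ h
      exact absurd (isUnit_of_dvd_unit h (hx.map ph)) hϖ.not_isUnit
    | h₃ a p ha hp ih =>
      intro hf h
      rw [map_mul] at h
      rcases hϖ.dvd_or_dvd h with h | h
      · exact ⟨p, hp.irreducible, dvd_mul_right _ _, h⟩
      · obtain ⟨π, h1, h2, h3⟩ := ih ha h
        exact ⟨π, h1, h2.mul_left _, h3⟩
  obtain ⟨π, hπ1, hπ2, hπ3⟩ := h1 μ h0 hd
  obtain ⟨c, hc⟩ := hπ2
  obtain ⟨e, b, he, -, -⟩ := Pool.Agent.Helper16.hom_factor (hc ▸ hμ) (hc ▸ h0)
  have h2 : degreeOf 2 π ≠ 0 := by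
    intro h2
    have := ph_unit he hπ1.ne_zero h2
    exact hϖ.not_isUnit (isUnit_of_dvd_unit hπ3 this)
  refine ⟨π, e, he, hπ1, ⟨c, hc⟩, h2, ?_⟩
  exact hϖ.associated_of_dvd (ph_prime he hπ1 h2) hπ3

/-- transfer of the splitting condition -/
theorem sq_transfer {μ δ : R3} {m n : ℕ} (hμ : μ.IsHomogeneous m) (h0 : μ ≠ 0)
    (hδ : δ.IsHomogeneous n)
    (hsp : ∀ π, Irreducible π → π ∣ μ → ∃ g h, ¬ π ∣ h ∧ π ∣ g ^ 2 - δ * h ^ 2) :
    ∀ ϖ : RA, Prime ϖ → ϖ ∣ ph μ → ∃ g h, ¬ ϖ ∣ h ∧ ϖ ∣ g ^ 2 - ph δ * h ^ 2 := by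
  intro ϖ hϖ hd
  obtain ⟨π, e, hπ, hirr, hπμ, hπ2, hass⟩ := exists_prime_form hμ h0 hϖ hd
  obtain ⟨g, h, hh, hgh⟩ := hsp π hirr hπμ
  obtain ⟨g', h', j, hh', hd', hgh'⟩ := hom_sq hπ hirr hδ hh hgh
  refine ⟨ph g', ph h', ?_, ?_⟩
  · rw [hass.dvd_iff_dvd_left, ph_dvd hπ hirr hπ2 hh']
    exact hd'
  · rw [hass.dvd_iff_dvd_left]
    have := map_dvd ph hgh'
    rwa [map_sub, map_mul, map_pow, map_pow] at this

theorem ph_adjugate {n : ℕ} (N : Matrix (Fin n) (Fin n) R3) (i j : Fin n) :
    (N.map ph).adjugate i j = ph (N.adjugate i j) := by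
  have := AlgHom.map_adjugate ph N
  rw [AlgHom.mapMatrix_apply, AlgHom.mapMatrix_apply] at this
  rw [← this]; rfl

theorem ph_det {n : ℕ} (N : Matrix (Fin n) (Fin n) R3) : (N.map ph).det = ph N.det := by
  have := AlgHom.map_det ph N
  rw [AlgHom.mapMatrix_apply] at this
  exact this.symm

/-- common homogenisation of a finite family, with prescribed weights -/
theorem lift_family {ι : Type*} [Fintype ι] (a : ι → RA) (w : ι → ℕ) :
    ∃ (D m : ℕ) (q : R3) (p : ι → R3), q ≠ 0 ∧ q.IsHomogeneous m ∧ degreeOf 2 q = 0 ∧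
      (∀ i, (p i).IsHomogeneous (D + w i)) ∧ ∀ i, ph (p i) = ph q * a i := by
  classical
  choose s n p hs hp hp1 using fun i => lift_ra (a i)
  obtain ⟨m, q, hq, hq1, hq2⟩ := lift_cx (∏ i, s i)
  have hq0 : q ≠ 0 := by
    intro h
    rw [h, map_zero] at hq1
    exact cx_ne (Finset.prod_ne_zero_iff.mpr fun i _ => hs i) hq1.symm
  choose k t ht ht1 ht2 using fun i => lift_cx (∏ j ∈ Finset.univ.erase i, s j)
  have hst : ∀ i, cx (∏ j ∈ Finset.univ.erase i, s j) * cx (s i) = cx (∏ i, s i) := by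
    intro i
    rw [← map_mul, Finset.prod_erase_mul _ _ (Finset.mem_univ i)]
  have hle : ∀ i, k i + n i ≤ ∑ j, (k j + n j) := fun i =>
    Finset.single_le_sum (f := fun j => k j + n j) (fun j _ => Nat.zero_le _) (Finset.mem_univ i)
  refine ⟨∑ j, (k j + n j), m, q,
    fun i => X 0 ^ (∑ j, (k j + n j) - (k i + n i) + w i) * (t i * p i), hq0, hq, hq2, ?_, ?_⟩
  · intro i
    have h1 := (isHomogeneous_X_pow (R := ℂ) (0 : Fin 3)
      (∑ j, (k j + n j) - (k i + n i) + w i)).mul ((ht i).mul (hp i))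
    have h2 : ∑ j, (k j + n j) - (k i + n i) + w i + (k i + n i) = ∑ j, (k j + n j) + w i := by
      have := hle i; omega
    rwa [h2] at h1
  · intro i
    rw [map_mul, map_pow, ph_X0, one_pow, one_mul, map_mul, ht1, hp1, hq1, ← hst i]
    ring

/-- the same over the fraction field -/
theorem lift_family_frac {ι : Type*} [Fintype ι] {L : Type*} [Field L] [Algebra RA L]
    [IsFractionRing RA L] (a : ι → L) (w : ι → ℕ) :
    ∃ (D m : ℕ) (q : R3) (p : ι → R3), q ≠ 0 ∧ q.IsHomogeneous m ∧
      (∀ i, (p i).IsHomogeneous (D + w i)) ∧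
      ∀ i, algebraMap RA L (ph (p i)) = algebraMap RA L (ph q) * a i := by
  classical
  obtain ⟨c, hc⟩ := IsLocalization.exist_integer_multiples_of_finite (nonZeroDivisors RA) a
  choose b hb using hc
  obtain ⟨D, m, q, p, hq0, hq, -, hp, hp1⟩ := lift_family
    (fun o : Option ι => o.elim (c : RA) b) (fun o : Option ι => o.elim 0 w)
  refine ⟨D, D + 0, p none, fun i => p (some i), ?_, hp none, fun i => hp (some i), ?_⟩
  · intro h
    have h1 := hp1 none
    rw [h, map_zero] at h1
    have h2 : ph q ≠ 0 := fun h => hq0 (ph_inj hq h)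
    exact mul_ne_zero h2 (nonZeroDivisors.ne_zero c.2) h1.symm
  · intro i
    have h1 := hp1 none
    have h2 := hp1 (some i)
    simp only [Option.elim] at h1 h2
    rw [h1, h2, map_mul, map_mul, hb i, Algebra.smul_def, mul_assoc]

end Pool.Agent.Helper82.HP
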