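import Pool.Agent.Helper29.HP.St.Purity
import Pool.Agent.Helper29.HP.St.SimIso
import Pool.Agent.Helper29.HP.St.RatIso
import Pool.Agent.Helper29.HP.St.Psi

set_option autoImplicit false

/-!
The case of a theta characteristic with two sections: the quadric surface bundle is then
isotropic over `C(x, y)`.
-/

namespace Pool.Agent.Helper82.HP

open Matrix Pool.Agent.Helper29.HP

/-- a binary form plus two hyperbolic planes -/
def binH {R : Type*} [CommRing R] (a b b' c : R) : Matrix (Fin 6) (Fin 6) R :=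
  !![a, b, 0, 0, 0, 0; b', c, 0, 0, 0, 0; 0, 0, 0, 1, 0, 0; 0, 0, 1, 0, 0, 0;
    0, 0, 0, 0, 0, 1; 0, 0, 0, 0, 1, 0]

theorem det_binH {R : Type*} [CommRing R] (a b b' c : R) :
    (binH a b b' c).det = a * c - b * b' := by
  rw [binH]
  simp [Matrix.det_succ_row_zero, Fin.sum_univ_succ, Fin.succAbove]
  ring

theorem adj_binH {R : Type*} [CommRing R] (a b b' c : R) :
    (binH a b b' c).adjugate 1 1 = a := by
  rw [Matrix.adjugate_apply]
  have h1 : (binH a b b' c).updateRow 1 (Pi.single 1 1) = binH a b 0 1 := by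
    ext i j
    fin_cases i <;> fin_cases j <;> simp [binH, Matrix.updateRow_apply]
  rw [h1, det_binH]
  ring

theorem symm_binH {R : Type*} [CommRing R] (a b c : R) : (binH a b b c).IsSymm := by
  ext i j
  fin_cases i <;> fin_cases j <;> rfl

theorem map_binH {R S : Type*} [CommRing R] [CommRing S] (f : R →+* S) (a b b' c : R) :
    (binH a b b' c).map f = binH (f a) (f b) (f b') (f c) := by
  ext i j
  fin_cases i <;> fin_cases j <;> simp [binH]

theorem quad_binH {R : Type*} [CommRing R] (a b c : R) (w : Fin 6 → R) (h0 : w 0 = 0)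
    (h1 : w 1 = 0) (h3 : w 3 = 0) (h4 : w 4 = 0) : w ⬝ᵥ (binH a b b c) *ᵥ w = 0 := by
  simp only [dotProduct, mulVec, binH, Fin.sum_univ_succ]
  simp [h0, h1, Fin.succ, show w 3 = 0 from h3, show w 4 = 0 from h4]

theorem isotropic_of_sim {K : Type*} [Field K] (N : Matrix (Fin 4) (Fin 4) K) (a b c μ : K)
    (Φ : Matrix (Fin 6) (Fin 4) K)
    (h1 : ∀ y, (Pi.single 2 1 : Fin 6 → K) ⬝ᵥ (binH a b b c).mulVec (Φ.mulVec y) = 0)
    (h2 : ∀ y y', y ⬝ᵥ N.mulVec y' = μ * (Φ.mulVec y ⬝ᵥ (binH a b b c).mulVec (Φ.mulVec y'))) :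
    ∃ y : Fin 4 → K, y ≠ 0 ∧ y ⬝ᵥ N.mulVec y = 0 := by
  obtain ⟨Q, hQ⟩ : ∃ Q : Matrix (Fin 4) (Fin 4) K, Q = ![Φ 0, Φ 1, Φ 4, 0] := ⟨_, rfl⟩
  have hdet : Q.det = 0 := by
    apply Matrix.det_eq_zero_of_row_eq_zero 3
    intro j
    rw [hQ]; rfl
  obtain ⟨y, hy, hQy⟩ := Matrix.exists_mulVec_eq_zero_iff.mpr hdet
  refine ⟨y, hy, ?_⟩
  have e0 : Φ.mulVec y 0 = 0 := by
    have := congrFun hQy 0
    rw [hQ] at this
    exact this
  have e1 : Φ.mulVec y 1 = 0 := by
    have := congrFun hQy 1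
    rw [hQ] at this
    exact this
  have e4 : Φ.mulVec y 4 = 0 := by
    have := congrFun hQy 2
    rw [hQ] at this
    exact this
  have e3 : Φ.mulVec y 3 = 0 := by
    have := h1 y
    rw [single_dotProduct, one_mul] at this
    rw [← this]
    generalize Φ.mulVec y = w
    simp only [dotProduct, mulVec, binH, Fin.sum_univ_succ]
    simp [Fin.succ]
  rw [h2, quad_binH a b c _ e0 e1 e3 e4, mul_zero]

/-- linear independence over the fraction field -/
theorem indep_frac {R K : Type*} [CommRing R] [IsDomain R] [Field K] [Algebra R K]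
    [IsFractionRing R K] {ι m n : Type*} (u : ι → m → R) (v : ι → n → R)
    (h : LinearIndependent R (fun a => (u a, v a))) :
    LinearIndependent K (fun a => ((fun i => algebraMap R K (u a i) : m → K),
      (fun i => algebraMap R K (v a i) : n → K))) := by
  rw [← LinearIndependent.iff_fractionRing R K]
  let f : ((m → R) × (n → R)) →ₗ[R] ((m → K) × (n → K)) :=
    LinearMap.prodMap ((Algebra.linearMap R K).compLeft m) ((Algebra.linearMap R K).compLeft n)
  have hinj := IsFractionRing.injective R K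
  have hf : LinearMap.ker f = ⊥ := by
    rw [LinearMap.ker_eq_bot]
    rintro ⟨x1, x2⟩ ⟨y1, y2⟩ hxy
    have e1 := congrArg Prod.fst hxy
    have e2 := congrArg Prod.snd hxy
    refine Prod.ext ?_ ?_
    · funext i
      exact hinj (congrFun e1 i)
    · funext i
      exact hinj (congrFun e2 i)
  exact h.map' f hf

theorem map_dot {R K : Type*} [CommRing R] [CommRing K] (f : R →+* K) {n : ℕ}
    (M : Matrix (Fin n) (Fin n) R) (x y : Fin n → R) :
    f (x ⬝ᵥ M.mulVec y) = (fun i => f (x i)) ⬝ᵥ (M.map f).mulVec (fun i => f (y i)) := by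
  simp [dotProduct, mulVec]

/-- if `N` is Witt equivalent to a multiple of a binary form then it is isotropic -/
theorem iso_of_bin (N : Matrix (Fin 4) (Fin 4) AA) (hN : N.IsSymm) (δ μ s a b c : AA)
    (hδ : Prime δ) (hdN : N.det = δ) (hμ : μ ≠ 0) (hμδ : ¬ δ ∣ μ)
    (hsp : ∀ π : AA, Prime π → π ∣ μ → ∃ g h : AA, ¬ π ∣ h ∧ π ∣ g ^ 2 - δ * h ^ 2)
    (i : Fin 4) (hi : ¬ δ ∣ N.adjugate i i) (habc : a * c - b * b = δ) (ha : ¬ δ ∣ a)
    (hs : δ ∣ s ^ 2 - μ * N.adjugate i i * a) :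
    ∃ y : Fin 4 → KK, y ≠ 0 ∧ y ⬝ᵥ (N.map (algebraMap AA KK)).mulVec y = 0 := by
  obtain ⟨u, v, huv1, huv2⟩ := purity N (binH a b b c) hN (symm_binH a b c) δ μ s hδ hdN
    (by rw [det_binH, habc]) hμ hμδ hsp i 1 hi (by rw [adj_binH]; exact ha)
    (by rw [adj_binH]; exact hs)
  have hinj := IsFractionRing.injective AA KK
  have hδK : algebraMap AA KK δ ≠ 0 := by
    rw [Ne, map_eq_zero_iff _ hinj]; exact hδ.ne_zero
  have hdet : ∀ {n : ℕ} (M : Matrix (Fin n) (Fin n) AA), (M.map (algebraMap AA KK)).det =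
      algebraMap AA KK M.det := by
    intro n M
    exact (RingHom.map_det (algebraMap AA KK) M).symm
  rcases sim_or_iso (K := KK) two_ne_zero (N.map (algebraMap AA KK))
    ((binH a b b c).map (algebraMap AA KK)) (by rw [Matrix.IsSymm, ← Matrix.transpose_map, hN.eq])
    (by rw [Matrix.IsSymm, ← Matrix.transpose_map, (symm_binH a b c).eq])
    (by rw [hdet, hdN]; exact hδK) (by rw [hdet, det_binH, habc]; exact hδK)
    (algebraMap AA KK μ) (by rw [Ne, map_eq_zero_iff _ hinj]; exact hμ)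
    (fun a i => algebraMap AA KK (u a i)) (fun a i => algebraMap AA KK (v a i))
    (indep_frac u v huv1)
    (by
      intro p q
      have h1 := congrArg (algebraMap AA KK) (huv2 p q)
      rw [map_mul] at h1
      rw [← map_dot, ← map_dot]
      exact h1)
    (Pi.single 2 1) (by simp) (by
      rw [map_binH, single_dotProduct, one_mul, mulVec_single_one]
      rfl) with h | ⟨Φ, h1, h2⟩
  · exact h
  · rw [map_binH] at h1 h2
    exact isotropic_of_sim _ _ _ _ _ Φ h1 h2

open MvPolynomial Pool.Agent.Helper16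

theorem map_map_psi {n : ℕ} (N : Matrix (Fin n) (Fin n) P3) :
    (N.map psi).map (algebraMap AA KK) = N.map psiK := by
  ext i j; rfl

theorem isotropic_of_disc {n : ℕ} {N : Matrix (Fin n) (Fin n) P3} (h : N.det = 0) :
    ∃ y : Fin n → KK, y ≠ 0 ∧ (N.map psiK).mulVec y = 0 := by
  apply Matrix.exists_mulVec_eq_zero_iff.mpr
  have h1 := AlgHom.map_det psiK N
  rw [AlgHom.mapMatrix_apply] at h1
  rw [← h1, h, map_zero]

/-- the quadric surface bundle is isotropic when the theta characteristic has two sections -/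
theorem iso_of_two_sections {N : Matrix (Fin 4) (Fin 4) P3} (hN : N.IsSymm)
    (hdet : N.det.IsHomogeneous 6) (hirr : Irreducible N.det)
    (j : Fin 4) {e : ℕ} (hjh : (N.adjugate j j).IsHomogeneous e) (hj : ¬ N.det ∣ N.adjugate j j)
    {μ : P3} {m : ℕ} (hμ : μ.IsHomogeneous m) (hμδ : ¬ N.det ∣ μ)
    (hsp : ∀ π, Irreducible π → π ∣ μ → ∃ g h, ¬ π ∣ h ∧ π ∣ g ^ 2 - N.det * h ^ 2)
    {s G G1 G2 : P3} {d : ℕ} (hG : G.IsHomogeneous d) (hd : d < 6)
    (hdG : G * G1 - G2 ^ 2 = N.det) (hs : N.det ∣ s ^ 2 - μ * N.adjugate j j * G) :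
    ∃ y : Fin 4 → KK, y ≠ 0 ∧ y ⬝ᵥ (N.map psiK).mulVec y = 0 := by
  have hμ0 : μ ≠ 0 := by
    rintro rfl
    exact hμδ (dvd_zero _)
  have hpr : Prime (psi N.det) := psi_prime_of_deg hirr hdet (by norm_num)
  have hnd : ∀ {q : P3} {d : ℕ}, q.IsHomogeneous d → ¬ N.det ∣ q → ¬ psi N.det ∣ psi q :=
    fun hq h h' => h (dvd_of_psi_dvd hirr hdet hq hpr h')
  have hGd : ¬ N.det ∣ G := by
    intro h
    have hG0 : G ≠ 0 := by
      rintro rfl
      rw [zero_mul, zero_sub] at hdG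
      have h2 : N.det = G2 * (-G2) := by rw [← hdG]; ring
      rcases hirr.isUnit_or_isUnit h2 with h | h
      · exact hirr.not_isUnit (h2 ▸ h.mul h.neg)
      · exact hirr.not_isUnit (h2 ▸ (by simpa using h.neg : IsUnit G2).mul h)
    obtain ⟨q, hq⟩ := h
    have h1 := hG.totalDegree hG0
    have hq0 : q ≠ 0 := by
      rintro rfl
      exact hG0 (by rw [hq, mul_zero])
    rw [hq, totalDegree_mul_of_isDomain hirr.ne_zero hq0, hdet.totalDegree hirr.ne_zero] at h1
    omega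
  obtain ⟨y, hy, hy0⟩ := iso_of_bin (N.map psi)
    (by rw [Matrix.IsSymm, ← Matrix.transpose_map, hN.eq]) (psi N.det) (psi μ) (psi s) (psi G)
    (psi G2) (psi G1) hpr (by
      have h1 := AlgHom.map_det psi N
      rw [AlgHom.mapMatrix_apply] at h1
      exact h1.symm) (psi_ne_zero hμ hμ0) (hnd hμ hμδ) (psi_sq hμ hμ0 hdet hsp) j
    (by
      have h1 : (N.map psi).adjugate j j = psi (N.adjugate j j) := ph_adjugate N j j
      rw [h1]; exact hnd hjh hj)
    (by rw [← map_mul, ← map_mul, ← map_sub, ← hdG]; congr 1; ring)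
    (hnd hG hGd)
    (by
      have h1 : (N.map psi).adjugate j j = psi (N.adjugate j j) := ph_adjugate N j j
      have h2 := map_dvd psi hs
      rw [map_sub, map_pow, map_mul, map_mul] at h2
      rw [h1]; exact h2)
  exact ⟨y, hy, by rw [← map_map_psi]; exact hy0⟩

/-- a cubic fourfold containing a plane is rational if one of the theta characteristics with its
Brauer class has two sections without common zero -/
theorem rat4_of_two_sections {c : Cub (I6 → ℂ)} (hP : c.Iso P0)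
    (hirr : Irreducible (c.Nm (X : Fin 3 → P3)).det)
    (hdet : (c.Nm (X : Fin 3 → P3)).det.IsHomogeneous 6)
    (j : Fin 4) {e : ℕ} (hjh : ((c.Nm (X : Fin 3 → P3)).adjugate j j).IsHomogeneous e)
    (hj : ¬ (c.Nm (X : Fin 3 → P3)).det ∣ (c.Nm (X : Fin 3 → P3)).adjugate j j)
    {μ : P3} {m : ℕ} (hμ : μ.IsHomogeneous m) (hμδ : ¬ (c.Nm (X : Fin 3 → P3)).det ∣ μ)
    (hsp : ∀ π, Irreducible π → π ∣ μ →
      ∃ g h, ¬ π ∣ h ∧ π ∣ g ^ 2 - (c.Nm (X : Fin 3 → P3)).det * h ^ 2)
    {s G G1 G2 : P3} {d : ℕ} (hG : G.IsHomogeneous d) (hd : d < 6)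
    (hdG : G * G1 - G2 ^ 2 = (c.Nm (X : Fin 3 → P3)).det)
    (hs : (c.Nm (X : Fin 3 → P3)).det ∣ s ^ 2 - μ * (c.Nm (X : Fin 3 → P3)).adjugate j j * G) :
    c.Rat4 := by
  obtain ⟨y, hy, hy0⟩ := iso_of_two_sections (N := c.Nm (X : Fin 3 → P3)) (c.Nm_symm _) hdet hirr j
    hjh hj hμ hμδ hsp hG hd hdG hs
  exact rat4_of_iso hP y hy hy0

end Pool.Agent.Helper82.HP
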