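import Pool.Agent.Helper5.HP.Norm

set_option autoImplicit false

/-!
The tritangent line of a smooth plane sextic whose theta characteristic has three sections.
-/

namespace Pool.Agent.Helper82.HP

open MvPolynomial Pool.Agent.Helper29 Pool.Agent.Helper29.HP Pool.Agent.Helper29.HP.Six
open Pool.Agent.Helper5.HP

theorem sq_ideal_of_even {B : Type*} [CommRing B] [IsDedekindDomain B] (π : P2 →+* B)
    (hπ : Function.Surjective π) (f h : P2) (hπ0 : ∀ x, π x = 0 ↔ f ∣ x) (hfh : ¬ f ∣ h)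
    (hev : ∀ P : Fin 2 → ℂ, eval P f = 0 → ∃ α β σ : P2, eval P α ≠ 0 ∧ eval P β ≠ 0 ∧
      f ∣ α * h - β * σ ^ 2) :
    ∃ 𝔟 : Ideal B, 𝔟 ^ 2 = Ideal.span {π h} := by
  classical
  have hh0 : π h ≠ 0 := fun h' => hfh ((hπ0 h).1 h')
  have hI0 : (Ideal.span {π h} : Ideal B) ≠ 0 := by
    rw [Ne, Ideal.zero_eq_bot, Ideal.span_singleton_eq_bot]
    exact hh0
  exact ideal_sq_of_even (Ideal.span {π h}) hI0 (by
    intro p hp
    have hpp : Prime p := UniqueFactorizationMonoid.prime_of_normalized_factor p hp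
    have hpprime : p.IsPrime := Ideal.isPrime_of_prime hpp
    have hpmax : p.IsMaximal := hpprime.isMaximal hpp.ne_zero
    have hcmax : (p.comap π).IsMaximal := Ideal.comap_isMaximal_of_surjective π hπ
    obtain ⟨P, hP⟩ := MvPolynomial.isMaximal_iff_eq_vanishingIdeal_singleton.1 hcmax
    have hmem : ∀ x : P2, π x ∈ p ↔ eval P x = 0 := by
      intro x
      rw [← Ideal.mem_comap, hP, mem_vanishingIdeal_singleton_iff]
      rfl
    have hfP : eval P f = 0 := by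
      rw [← hmem, (hπ0 f).2 dvd_rfl]
      exact p.zero_mem
    obtain ⟨α, β, σ, hα, hβ, hdiv⟩ := hev P hfP
    have heq : π α * π h = π β * π σ ^ 2 := by
      have h1 := (hπ0 _).2 hdiv
      rw [map_sub, map_mul, map_mul, map_pow] at h1
      exact sub_eq_zero.1 h1
    have hα0 : π α ≠ 0 := fun h' => hα ((hmem α).1 (by rw [h']; exact p.zero_mem))
    have hβ0 : π β ≠ 0 := fun h' => hβ ((hmem β).1 (by rw [h']; exact p.zero_mem))
    have hσ0 : π σ ≠ 0 := by
      intro h'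
      rw [h', zero_pow two_ne_zero, mul_zero] at heq
      exact (mul_ne_zero hα0 hh0) heq
    have hideal : Ideal.span {π α} * Ideal.span {π h} =
        Ideal.span {π β} * Ideal.span {π σ} ^ 2 := by
      rw [Ideal.span_singleton_pow, Ideal.span_singleton_mul_span_singleton,
        Ideal.span_singleton_mul_span_singleton, heq]
    have hnz : ∀ z, z ≠ 0 → (Ideal.span {z} : Ideal B) ≠ 0 := by
      intro z hz
      rw [Ne, Ideal.zero_eq_bot, Ideal.span_singleton_eq_bot]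
      exact hz
    have hcnt : ∀ z, z ∉ p → z ≠ 0 → (UniqueFactorizationMonoid.normalizedFactors
        (Ideal.span {z} : Ideal B)).count p = 0 := by
      intro z hz hz0
      rw [Multiset.count_eq_zero]
      intro hmemz
      have h1 := UniqueFactorizationMonoid.dvd_of_mem_normalizedFactors hmemz
      rw [Ideal.dvd_span_singleton] at h1
      exact hz h1
    have hfac := congrArg (fun I => (UniqueFactorizationMonoid.normalizedFactors I).count p) hideal
    rw [UniqueFactorizationMonoid.normalizedFactors_mul (hnz _ hα0) (hnz _ hh0),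
      UniqueFactorizationMonoid.normalizedFactors_mul (hnz _ hβ0) (pow_ne_zero 2 (hnz _ hσ0)),
      UniqueFactorizationMonoid.normalizedFactors_pow, Multiset.count_add, Multiset.count_add,
      Multiset.count_nsmul, hcnt _ (fun h' => hα ((hmem α).1 h')) hα0,
      hcnt _ (fun h' => hβ ((hmem β).1 h')) hβ0, zero_add, zero_add] at hfac
    rw [hfac]
    exact even_two_mul _)

theorem half_of_sq {B : Type*} [CommRing B] [IsDedekindDomain B] (π : P2 →+* B)
    (hπ : Function.Surjective π) (f h : P2) (hπ0 : ∀ x, π x = 0 ↔ f ∣ x) (hfh : ¬ f ∣ h)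
    (𝔟 : Ideal B) (h𝔟 : 𝔟 ^ 2 = Ideal.span {π h})
    (hfin : FiniteDimensional ℂ (P2 ⧸ Ideal.span {f, h})) :
    ∃ b : Ideal P2, Ideal.span {f, h} ≤ b ∧ (∀ x ∈ b, ∀ y ∈ b, x * y ∈ Ideal.span {f, h}) ∧
      FiniteDimensional ℂ (P2 ⧸ b) ∧
      2 * Module.finrank ℂ (P2 ⧸ b) ≤ Module.finrank ℂ (P2 ⧸ Ideal.span {f, h}) := by
  classical
  have hh0 : π h ≠ 0 := fun h' => hfh ((hπ0 h).1 h')
  have hI0 : (Ideal.span {π h} : Ideal B) ≠ 0 := by
    rw [Ne, Ideal.zero_eq_bot, Ideal.span_singleton_eq_bot]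
    exact hh0
  have h𝔟0 : 𝔟 ≠ 0 := by
    intro h'
    rw [h', zero_pow two_ne_zero] at h𝔟
    exact hI0 h𝔟.symm
  -- the ideal of the plane
  have hJ : ∀ x : P2, x ∈ Ideal.span {f, h} ↔ π x ∈ 𝔟 ^ 2 := by
    intro x
    rw [h𝔟, Ideal.mem_span_singleton]
    constructor
    · intro hx
      obtain ⟨u, v, huv⟩ := Ideal.mem_span_pair.1 hx
      refine ⟨π v, ?_⟩
      rw [← huv, map_add, map_mul, map_mul, (hπ0 f).2 dvd_rfl, mul_zero, zero_add, mul_comm]
    · rintro ⟨v', hv'⟩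
      obtain ⟨v, rfl⟩ := hπ v'
      have h1 : π (x - h * v) = 0 := by rw [map_sub, map_mul, hv', sub_self]
      obtain ⟨u, hu⟩ := (hπ0 _).1 h1
      refine Ideal.mem_span_pair.2 ⟨u, v, ?_⟩
      linear_combination -hu
  have hsqle : 𝔟 ^ 2 ≤ 𝔟 := Ideal.pow_le_self two_ne_zero
  let b : Ideal P2 := 𝔟.comap π
  have hJb : Ideal.span {f, h} ≤ b := by
    intro x hx
    exact hsqle ((hJ x).1 hx)
  obtain ⟨a0, ha0⟩ := IsDedekindDomain.exists_sup_span_eq hsqle (pow_ne_zero 2 h𝔟0)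
  obtain ⟨a, rfl⟩ := hπ a0
  have ha𝔟 : π a ∈ 𝔟 := by
    rw [← ha0]
    exact Ideal.mem_sup_right (Ideal.mem_span_singleton_self _)
  have hkey : ∀ x : P2, a * x ∈ Ideal.span {f, h} → x ∈ b := by
    intro x hx
    have h1 : π a * π x ∈ 𝔟 ^ 2 := by
      rw [← map_mul]
      exact (hJ _).1 hx
    have h2 : Ideal.span {π x} * 𝔟 ≤ 𝔟 * 𝔟 := by
      rw [← pow_two]
      conv_lhs => rw [← ha0]
      rw [Ideal.mul_sup]
      refine sup_le ?_ ?_
      · exact Ideal.mul_le_right.trans le_rfl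
      · rw [Ideal.span_singleton_mul_span_singleton, Ideal.span_singleton_le_iff_mem, mul_comm]
        exact h1
    have h3 : Ideal.span {π x} ≤ 𝔟 := by
      rw [← Ideal.dvd_iff_le] at h2 ⊢
      exact (mul_dvd_mul_iff_right h𝔟0).1 h2
    exact h3 (Ideal.mem_span_singleton_self _)
  have hmul : ∀ x ∈ b, ∀ y ∈ b, x * y ∈ Ideal.span {f, h} := by
    intro x hx y hy
    rw [hJ, map_mul, pow_two]
    exact Ideal.mul_mem_mul hx hy
  -- linear algebra
  let F : (P2 ⧸ Ideal.span {f, h}) →ₐ[ℂ] (P2 ⧸ b) := Ideal.Quotient.factorₐ ℂ hJb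
  have hFsurj : Function.Surjective F := by
    intro y
    obtain ⟨x, rfl⟩ := Ideal.Quotient.mk_surjective y
    exact ⟨Ideal.Quotient.mk _ x, rfl⟩
  have hfinb : FiniteDimensional ℂ (P2 ⧸ b) :=
    Module.Finite.of_surjective F.toLinearMap hFsurj
  let G0 : P2 →ₗ[ℂ] (P2 ⧸ Ideal.span {f, h}) :=
    (Ideal.Quotient.mkₐ ℂ (Ideal.span {f, h})).toLinearMap ∘ₗ LinearMap.mulLeft ℂ a
  have hG0 : ∀ x, G0 x = Ideal.Quotient.mk (Ideal.span {f, h}) (a * x) := fun x => rfl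
  let π2 : P2 →ₗ[ℂ] (P2 ⧸ b) := (Ideal.Quotient.mkₐ ℂ b).toLinearMap
  have hπ2 : Function.Surjective π2 := Ideal.Quotient.mk_surjective
  have hker : LinearMap.ker G0 = LinearMap.ker π2 := by
    ext x
    rw [LinearMap.mem_ker, LinearMap.mem_ker, hG0, Ideal.Quotient.eq_zero_iff_mem]
    rw [show π2 x = Ideal.Quotient.mk b x from rfl, Ideal.Quotient.eq_zero_iff_mem]
    constructor
    · exact hkey x
    · intro hx
      exact hmul a ha𝔟 x hx
  have e1 : LinearMap.range G0 ≃ₗ[ℂ] (P2 ⧸ b) :=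
    (G0.quotKerEquivRange.symm.trans (Submodule.quotEquivOfEq _ _ hker)).trans
      (π2.quotKerEquivOfSurjective hπ2)
  have hrange : LinearMap.range G0 ≤ LinearMap.ker F.toLinearMap := by
    rintro _ ⟨x, rfl⟩
    rw [LinearMap.mem_ker, hG0]
    have : F.toLinearMap (Ideal.Quotient.mk (Ideal.span {f, h}) (a * x)) =
      Ideal.Quotient.mk b (a * x) := rfl
    rw [this, Ideal.Quotient.eq_zero_iff_mem]
    exact b.mul_mem_right x ha𝔟
  have h1 : Module.finrank ℂ (P2 ⧸ b) ≤ Module.finrank ℂ (LinearMap.ker F.toLinearMap) := by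
    rw [← e1.finrank_eq]
    exact Submodule.finrank_mono hrange
  have h2 := LinearMap.finrank_range_add_finrank_ker F.toLinearMap
  rw [LinearMap.range_eq_top.2 hFsurj, finrank_top] at h2
  exact ⟨b, hJb, hmul, hfinb, by omega⟩

theorem sq_ideal_quot {B : Type*} [CommRing B] [IsDedekindDomain B] {t h g : B} (hh : h ≠ 0)
    (hthg : t ^ 2 = h * g) {𝔟 : Ideal B} (h𝔟 : 𝔟 ^ 2 = Ideal.span {h}) :
    ∃ 𝔠 : Ideal B, 𝔠 ^ 2 = Ideal.span {g} := by
  have h1 : Ideal.span {t} ^ 2 = 𝔟 ^ 2 * Ideal.span {g} := by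
    rw [h𝔟, Ideal.span_singleton_pow, Ideal.span_singleton_mul_span_singleton, hthg]
  have h2 : 𝔟 ∣ Ideal.span {t} :=
    (UniqueFactorizationMonoid.pow_dvd_pow_iff_dvd two_ne_zero).mp ⟨_, h1⟩
  obtain ⟨𝔠, h𝔠⟩ := h2
  refine ⟨𝔠, ?_⟩
  have h𝔟0 : 𝔟 ≠ 0 := by
    intro h'
    rw [h', zero_pow two_ne_zero] at h𝔟
    have := h𝔟.symm
    rw [Ideal.zero_eq_bot, Ideal.span_singleton_eq_bot] at this
    exact hh this
  rw [h𝔠, mul_pow] at h1
  exact mul_left_cancel₀ (pow_ne_zero 2 h𝔟0) h1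

/-- linear algebra: an ideal of colength at most three contains a cubic not divisible by `g` -/
theorem exists_cubic {g : P3} (hg : g.IsHomogeneous 1) (hg0 : g ≠ 0) (b : Ideal P2)
    (hfin : FiniteDimensional ℂ (P2 ⧸ b)) (hdim : Module.finrank ℂ (P2 ⧸ b) ≤ 3) :
    ∃ s : P3, s.IsHomogeneous 3 ∧ dh2 s ∈ b ∧ ¬ g ∣ s := by
  classical
  by_contra hcon
  push Not at hcon
  have hf3 : FiniteDimensional ℂ (homogeneousSubmodule (Fin 3) ℂ 3) := by
    apply Module.finite_of_finrank_pos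
    rw [Helper16.finrank_hom3]; decide
  have hf2 : FiniteDimensional ℂ (homogeneousSubmodule (Fin 3) ℂ 2) := by
    apply Module.finite_of_finrank_pos
    rw [Helper16.finrank_hom3]; decide
  let F : homogeneousSubmodule (Fin 3) ℂ 3 →ₗ[ℂ] (P2 ⧸ b) :=
    (Ideal.Quotient.mkₐ ℂ b).toLinearMap ∘ₗ dh2.toLinearMap ∘ₗ
      (homogeneousSubmodule (Fin 3) ℂ 3).subtype
  have hF : ∀ x, F x = 0 ↔ dh2 (x : P3) ∈ b := by
    intro x
    rw [← Ideal.Quotient.eq_zero_iff_mem]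
    rfl
  let G : homogeneousSubmodule (Fin 3) ℂ 2 →ₗ[ℂ] homogeneousSubmodule (Fin 3) ℂ 3 :=
    { toFun := fun x => ⟨g * x.1, by
        have h1 : (g * x.1).IsHomogeneous (1 + 2) := hg.mul x.2
        exact h1⟩
      map_add' := fun x y => by
        ext1
        simp only [Submodule.coe_add]
        ring
      map_smul' := fun a x => by
        ext1
        simp only [Submodule.coe_smul, RingHom.id_apply, mul_smul_comm] }
  have hle : LinearMap.ker F ≤ LinearMap.range G := by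
    intro x hx
    rw [LinearMap.mem_ker, hF] at hx
    obtain ⟨q, hq⟩ := hcon x.1 x.2 hx
    by_cases hx0 : (x : P3) = 0
    · have : x = 0 := Subtype.ext hx0
      rw [this]
      exact Submodule.zero_mem _
    · have h1 : (x : P3).IsHomogeneous 3 := x.2
      rw [hq] at h1 hx0
      obtain ⟨a, b, ha, hb, hab⟩ := Helper16.hom_factor h1 hx0
      have ha1 : a = 1 := ha.inj_right hg hg0
      have hb1 : b = 2 := by omega
      subst hb1
      exact ⟨⟨q, hb⟩, Subtype.ext hq.symm⟩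
  have h1 := LinearMap.finrank_range_add_finrank_ker F
  have h2 : Module.finrank ℂ (LinearMap.range F) ≤ 3 :=
    (Submodule.finrank_le _).trans hdim
  have h3 : Module.finrank ℂ (LinearMap.ker F) ≤ 6 := by
    refine (Submodule.finrank_mono hle).trans ((LinearMap.finrank_range_le G).trans ?_)
    rw [Helper16.finrank_hom3]; decide
  rw [Helper16.finrank_hom3] at h1
  have h4 : (3 + 2).choose 2 = 10 := by decide
  omega

theorem tri_affine (δ h t g : P3) {m : ℕ} (hδ : δ.IsHomogeneous 6)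
    (hsm : ∀ z : Fin 3 → ℂ, z ≠ 0 → eval z δ = 0 → ∃ i, eval z (pderiv i δ) ≠ 0)
    (hh : h.IsHomogeneous m) (hδh : ¬ δ ∣ h) (hev : EvenOn δ h) (hg : g.IsHomogeneous 1)
    (hg0 : g ≠ 0) (hth : δ ∣ t ^ 2 - h * g)
    (hinf : ∀ z : Fin 3 → ℂ, z ≠ 0 → z 0 = 0 → eval z δ = 0 → eval z g ≠ 0) :
    ∃ A B : P3, δ = g * A - B ^ 2 := by
  classical
  have hirr : Irreducible δ := irreducible_of_smooth (by norm_num) hδ hsm
  have h0 : ¬ X 0 ∣ δ := not_X_dvd hirr hδ
  have hδg : ¬ δ ∣ g := by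
    rintro ⟨q, hq⟩
    have hq0 : q ≠ 0 := by
      rintro rfl
      exact hg0 (by rw [hq, mul_zero])
    have h1 := hg.totalDegree hg0
    rw [hq, totalDegree_mul_of_isDomain hirr.ne_zero hq0, hδ.totalDegree hirr.ne_zero] at h1
    omega
  have hf : Irreducible (dh2 δ) := irreducible_dh2 hδ hirr h0
  have hfh : ¬ dh2 δ ∣ dh2 h := fun hd => hδh (dvd_of_dh2_dvd hδ hh hirr h0 hd)
  have hfg : ¬ dh2 δ ∣ dh2 g := fun hd => hδg (dvd_of_dh2_dvd hδ hg hirr h0 hd)
  have hrel : IsRelPrime (dh2 δ) (dh2 g) := hf.isRelPrime_iff_not_dvd.mpr hfg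
  obtain ⟨hfin, hdim⟩ := bezout_dim (dh2 δ) (dh2 g) 6 1
    (Pool.Agent.Helper29.HP.totalDegree_dh2_le hδ)
    (Pool.Agent.Helper29.HP.totalDegree_dh2_le hg) hrel
  have hprime : (Ideal.span {dh2 δ} : Ideal P2).IsPrime :=
    (Ideal.span_singleton_prime hf.ne_zero).2 hf.prime
  have hded : IsDedekindDomain (P2 ⧸ Ideal.span {dh2 δ}) :=
    dedekind_of_smooth (dh2 δ) hf (smooth_dh2 hδ hsm)
  obtain ⟨π, hπ, hπ0⟩ : ∃ π : P2 →+* P2 ⧸ Ideal.span {dh2 δ}, Function.Surjective π ∧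
      ∀ x, π x = 0 ↔ dh2 δ ∣ x := by
    refine ⟨Ideal.Quotient.mk _, Ideal.Quotient.mk_surjective, fun x => ?_⟩
    rw [Ideal.Quotient.eq_zero_iff_mem, Ideal.mem_span_singleton]
  obtain ⟨𝔟, h𝔟⟩ := sq_ideal_of_even π hπ (dh2 δ) (dh2 h) hπ0 hfh (by
    intro P hP
    rw [eval_dh2'] at hP
    obtain ⟨α, β, σ, hα, hβ, hd⟩ := hev (Fin.cons 1 P) (by
      intro h
      have := congrFun h 0
      simp at this) hP
    refine ⟨dh2 α, dh2 β, dh2 σ, by rwa [eval_dh2'], by rwa [eval_dh2'], ?_⟩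
    have := map_dvd dh2 hd
    rwa [map_sub, map_mul, map_mul, map_pow] at this)
  have hthg : π (dh2 t) ^ 2 = π (dh2 h) * π (dh2 g) := by
    have h1 := map_dvd dh2 hth
    rw [map_sub, map_mul, map_pow] at h1
    have h2 := (hπ0 _).mpr h1
    rw [map_sub, map_mul, map_pow] at h2
    exact sub_eq_zero.mp h2
  obtain ⟨𝔠, h𝔠⟩ := sq_ideal_quot (fun h => hfh ((hπ0 _).mp h)) hthg h𝔟
  obtain ⟨b, hb1, hb2, hb3, hb4⟩ := half_of_sq π hπ (dh2 δ) (dh2 g) hπ0 hfg 𝔠 h𝔠 hfin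
  obtain ⟨s, hs, hsb, hgs⟩ := exists_cubic hg hg0 b hb3 (by omega)
  have hne : rh δ ≠ 0 := fun h => h0 (rh_eq_zero h)
  have hrr : IsRelPrime (rh δ) (rh g) := rh_rel hδ h0 hinf
  have hp : (s * s).IsHomogeneous (3 + 3) := hs.mul hs
  have hmem : dh2 (s * s) ∈ Ideal.span {dh2 δ, dh2 g} := by
    rw [map_mul]
    exact hb2 _ hsb _ hsb
  obtain ⟨N, hN⟩ := mem_of_dh2_mem hδ hg hp hmem
  obtain ⟨A, hA, e, he⟩ := hom_decomp hδ hg hp (by omega) (by omega)
    (mem_of_X_pow_mul hne hrr N hN)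
  -- `s ^ 2 = g A + δ e`
  have hprg : Prime g := by
    apply Irreducible.prime
    apply irreducible_of_totalDegree_eq_one (hg.totalDegree hg0)
    intro x hx
    apply IsUnit.mk0
    rintro rfl
    apply hg0
    ext m
    have := hx m
    rw [zero_dvd_iff] at this
    rw [this]; simp
  have he0 : e ≠ 0 := by
    rintro rfl
    apply hgs
    apply hprg.dvd_of_dvd_pow (n := 2)
    exact ⟨A, by linear_combination he⟩
  obtain ⟨c, hc0, hc⟩ : ∃ c : ℂ, c ≠ 0 ∧ e = C c := by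
    have hge : (δ * e).IsHomogeneous 6 := by
      rw [← he]
      refine hp.sub ?_
      have := hg.mul hA
      exact this
    obtain ⟨a', b', ha, hb, hab⟩ := Helper16.hom_factor hge (mul_ne_zero hirr.ne_zero he0)
    have ha1 : a' = 6 := ha.inj_right hδ hirr.ne_zero
    have hb1 : b' = 0 := by omega
    subst hb1
    have h4 : e.totalDegree = 0 := by
      have := hb.totalDegree_le
      omega
    rw [totalDegree_eq_zero_iff_eq_C] at h4
    refine ⟨coeff 0 e, ?_, h4⟩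
    intro h5
    rw [h5, map_zero] at h4
    exact he0 h4
  obtain ⟨r, hr⟩ := IsAlgClosed.exists_pow_nat_eq (-c⁻¹) (show 0 < 2 by norm_num)
  refine ⟨C (-c⁻¹) * A, C r * s, ?_⟩
  have h5 : (C r : P3) ^ 2 = C (-c⁻¹) := by rw [← map_pow, hr]
  have h6 : (C (-c⁻¹) : P3) * C c = -1 := by
    rw [← map_mul, neg_mul, inv_mul_cancel₀ hc0, map_neg, map_one]
  rw [hc] at he
  rw [mul_pow, h5]
  linear_combination (C (-c⁻¹)) * he + δ * h6

/-- the tritangent line -/
theorem tri_line (δ h t g : P3) {m : ℕ} (hδ : δ.IsHomogeneous 6)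
    (hsm : ∀ z : Fin 3 → ℂ, z ≠ 0 → eval z δ = 0 → ∃ i, eval z (pderiv i δ) ≠ 0)
    (hh : h.IsHomogeneous m) (hδh : ¬ δ ∣ h) (hev : EvenOn δ h) (hg : g.IsHomogeneous 1)
    (hg0 : g ≠ 0) (hth : δ ∣ t ^ 2 - h * g) :
    ∃ A B : P3, δ = g * A - B ^ 2 := by
  classical
  have hirr : Irreducible δ := irreducible_of_smooth (by norm_num) hδ hsm
  have hδg : ¬ δ ∣ g := by
    rintro ⟨q, hq⟩
    have hq0 : q ≠ 0 := by
      rintro rfl
      exact hg0 (by rw [hq, mul_zero])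
    have h1 := hg.totalDegree hg0
    rw [hq, totalDegree_mul_of_isDomain hirr.ne_zero hq0, hδ.totalDegree hirr.ne_zero] at h1
    omega
  have hrel : IsRelPrime δ g := hirr.isRelPrime_iff_not_dvd.mpr hδg
  obtain ⟨l, hl, hav⟩ := TR.exists_lin_avoid hδ hg hrel hg0
  obtain ⟨φ, hφ⟩ := exists_lequiv hl
  let a : (Fin 3 → ℂ) →ₗ[ℂ] (Fin 3 → ℂ) := φ.symm.toLinearMap
  let b : (Fin 3 → ℂ) →ₗ[ℂ] (Fin 3 → ℂ) := φ.toLinearMap
  have hab : ∀ z, a (b z) = z := φ.symm_apply_apply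
  have hba : ∀ z, b (a z) = z := φ.apply_symm_apply
  have h1 : ∀ p, lsub b (lsub a p) = p := lsub_lsub hab
  have ha0 : ∀ z, a z = 0 → z = 0 := by
    intro z hz
    rw [← hba z, hz, map_zero]
  obtain ⟨A, B, hAB⟩ := tri_affine (lsub a δ) (lsub a h) (lsub a t) (lsub a g)
    (lsub_hom a hδ) (smooth_lsub hsm hab ha0) (lsub_hom a hh) (by
      intro hd
      have := map_dvd (lsub b) hd
      rw [h1, h1] at this
      exact hδh this) (by
      intro z hz hzδ
      rw [eval_lsub] at hzδ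
      obtain ⟨α, β, σ, hα, hβ, hd⟩ := hev (a z) (fun h => hz (ha0 z h)) hzδ
      refine ⟨lsub a α, lsub a β, lsub a σ, by rwa [eval_lsub], by rwa [eval_lsub], ?_⟩
      have := map_dvd (lsub a) hd
      rwa [map_sub, map_mul, map_mul, map_pow] at this) (lsub_hom a hg) (by
      intro h
      apply hg0
      rw [← h1 g, h, map_zero]) (by
      have := map_dvd (lsub a) hth
      rwa [map_sub, map_mul, map_pow] at this) (by
      intro z hz hz0 hzδ hzy
      rw [eval_lsub] at hzδ hzy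
      apply hz
      apply ha0
      refine hav (a z) ?_ hzδ hzy
      rw [← hφ]
      change b (a z) 0 = 0
      rw [hba, hz0])
  refine ⟨lsub b A, lsub b B, ?_⟩
  have := congrArg (lsub b) hAB
  rw [map_sub, map_mul, map_pow, h1, h1] at this
  exact this

end Pool.Agent.Helper82.HP

namespace Pool.Agent.Helper29.HP

open MvPolynomial

/-- a section of a theta characteristic whose contact cubic is a line plus a double line comes
from a tritangent line -/
theorem tritangent (δ h : P3) (k : ℕ) (hδ : δ.IsHomogeneous 6)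
    (hsm : ∀ z : Fin 3 → ℂ, z ≠ 0 → eval z δ = 0 → ∃ i, eval z (pderiv i δ) ≠ 0)
    (hh : h.IsHomogeneous (2 * k + 3)) (hδh : ¬ δ ∣ h) (hev : EvenOn δ h) {s g p : P3}
    (hs : s.IsHomogeneous (k + 3)) (hδs : ¬ δ ∣ s) (hg : g.IsHomogeneous 1)
    (hp : p.IsHomogeneous 1) (hd : δ ∣ s ^ 2 - h * g * p ^ 2) :
    ∃ t A B : P3, δ = g * A - B ^ 2 ∧ δ ∣ t ^ 2 - h * g := by
  have hirr : Irreducible δ := irreducible_of_smooth (by norm_num) hδ hsm
  have hnd : ∀ {q : P3}, q.IsHomogeneous 1 → q ≠ 0 → ¬ δ ∣ q := by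
    rintro q hq hq0 ⟨e, he⟩
    have he0 : e ≠ 0 := by
      rintro rfl
      exact hq0 (by rw [he, mul_zero])
    have h1 := hq.totalDegree hq0
    rw [he, totalDegree_mul_of_isDomain hirr.ne_zero he0, hδ.totalDegree hirr.ne_zero] at h1
    omega
  have hp0 : p ≠ 0 := by
    rintro rfl
    apply hδs
    apply hirr.prime.dvd_of_dvd_pow (n := 2)
    have e1 : s ^ 2 - h * g * 0 ^ 2 = s ^ 2 := by ring
    rwa [e1] at hd
  have hg0 : g ≠ 0 := by
    rintro rfl
    apply hδs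
    apply hirr.prime.dvd_of_dvd_pow (n := 2)
    have e1 : s ^ 2 - h * 0 * p ^ 2 = s ^ 2 := by ring
    rwa [e1] at hd
  have hδp := hnd hp hp0
  obtain ⟨t, -, ht⟩ := Pool.Agent.Helper5.HP.norm_dvd δ hδ hsm hs hp (by omega) hδp (w := h * g)
    (by
      have e1 : s ^ 2 - p ^ 2 * (h * g) = s ^ 2 - h * g * p ^ 2 := by ring
      rwa [e1])
  have hth : δ ∣ t ^ 2 - h * g := by
    obtain ⟨u, hu⟩ := hd
    obtain ⟨v, hv⟩ := ht
    have h1 : δ ∣ p ^ 2 * (t ^ 2 - h * g) := by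
      refine ⟨u - v * (s + p * t), ?_⟩
      linear_combination hu - (s + p * t) * hv
    rcases hirr.prime.dvd_or_dvd h1 with h2 | h2
    · exact absurd (hirr.prime.dvd_of_dvd_pow h2) hδp
    · exact h2
  obtain ⟨A, B, hAB⟩ := Pool.Agent.Helper82.HP.tri_line δ h t g hδ hsm hh hδh hev hg hg0
    hth
  exact ⟨t, A, B, hAB, hth⟩

end Pool.Agent.Helper29.HP
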